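import Pool.Agent.U231.LT.Van
import Pool.Agent.U231.LP.Dec

/-!
# Galois representations of varieties of Fermat type: the decomposition
-/

set_option autoImplicit false
set_option linter.unusedSectionVars false

open TensorProduct Finset

namespace Pool.Agent.U231.LT

open Pool.Agent.Y95.ZT.S Pool.Agent.U231.LP Pool.Agent.U231.FT Pool.Agent.U231.HF

/-- functionals with given values in a separating family -/
theorem exists_fn {K V : Type*} [Field K] [AddCommGroup V] [Module K V] {κ : Type*} [Fintype κ]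
    [DecidableEq κ] {a : κ → V} (hli : LinearIndependent K a) {Φ : Set (V →ₗ[K] K)}
    (hsep : ∀ x ∈ Submodule.span K (Set.range a), (∀ f ∈ Φ, f x = 0) → x = 0) (v : κ → K) :
    ∃ F ∈ Submodule.span K Φ, ∀ l, F (a l) = v l := by
  let T : (V →ₗ[K] K) →ₗ[K] (κ → K) := LinearMap.pi fun l => LinearMap.applyₗ (a l)
  have hT : ∀ F l, T F l = F (a l) := fun F l => rfl
  have hR : (Submodule.span K Φ).map T = ⊤ := by
    by_contra hne
    obtain ⟨f, hf, hfR⟩ := Submodule.exists_le_ker_of_lt_top _ (lt_top_iff_ne_top.2 hne)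
    apply hf
    have e1 : ∀ v, f v = ∑ l, v l • f (Pi.single l 1) := by
      intro v
      conv_lhs => rw [← Finset.univ_sum_single v, map_sum]
      refine sum_congr rfl fun l _ => ?_
      rw [← map_smul, ← Pi.single_smul, smul_eq_mul, mul_one]
    have hx : ∑ l, f (Pi.single l 1) • a l = 0 := by
      refine hsep _ (Submodule.sum_mem _ fun l _ => Submodule.smul_mem _ _
        (Submodule.subset_span ⟨l, rfl⟩)) fun g hg => ?_
      have h1 : T g ∈ (Submodule.span K Φ).map T := ⟨g, Submodule.subset_span hg, rfl⟩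
      have h2 : f (T g) = 0 := hfR h1
      rw [e1] at h2
      rw [map_sum, ← h2]
      refine sum_congr rfl fun l _ => ?_
      rw [map_smul, hT, smul_eq_mul, smul_eq_mul, mul_comm]
    have h3 := Fintype.linearIndependent_iff.1 hli _ hx
    apply LinearMap.ext
    intro v
    rw [e1 v, LinearMap.zero_apply]
    exact sum_eq_zero fun l _ => by rw [h3 l, smul_zero]
  have hv : v ∈ (Submodule.span K Φ).map T := hR ▸ Submodule.mem_top
  obtain ⟨F, hF, hFv⟩ := hv
  exact ⟨F, hF, fun l => by rw [← hT, hFv]⟩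

variable {K : Type} [Field K] {Γ : Type} [Group Γ]

/-- contractions and degrees -/
theorem ctr_deg {M M' : Rp K Γ} {gr : ℕ → Submodule K M.V} {gr' : ℕ → Submodule K M'.V}
    {F : M.V →ₗ[K] K} {e : ℕ} (hF : ∀ m, m ≠ e → ∀ x ∈ gr m, F x = 0) {n : ℕ}
    {y : (tens M M').V} (hy : y ∈ prodGr gr gr' n) :
    (e ≤ n → ctr F y ∈ gr' (n - e)) ∧ (n < e → ctr F y = 0) := by
  replace hy : y ∈ Submodule.span K {c : (tens M M').V |
    ∃ i j x y, i + j = n ∧ x ∈ gr i ∧ y ∈ gr' j ∧ ext x y = c} := hy
  induction hy using Submodule.span_induction with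
  | mem y hy =>
    obtain ⟨i, j, x, z, h1, h2, h3, rfl⟩ := hy
    rw [ctr_ext]
    by_cases hi : i = e
    · subst hi
      refine ⟨fun _ => ?_, fun h => absurd h (by omega)⟩
      have h4 : n - i = j := by omega
      rw [h4]
      exact Submodule.smul_mem _ _ h3
    · rw [hF i hi x h2, zero_smul]
      exact ⟨fun _ => Submodule.zero_mem _, fun _ => rfl⟩
  | zero => rw [map_zero]; exact ⟨fun _ => Submodule.zero_mem _, fun _ => rfl⟩
  | add a b _ _ iha ihb =>
    rw [map_add]
    exact ⟨fun h => Submodule.add_mem _ (iha.1 h) (ihb.1 h),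
      fun h => by rw [iha.2 h, ihb.2 h, add_zero]⟩
  | smul c a _ iha =>
    rw [map_smul]
    exact ⟨fun h => Submodule.smul_mem _ _ (iha.1 h),
      fun h => by rw [iha.2 h, smul_zero]⟩

/-- contractions are linear in the functional -/
theorem ctr_add' {M M' : Rp K Γ} (f g : M.V →ₗ[K] K) (z : (tens M M').V) :
    ctr (f + g) z = ctr f z + ctr g z := by
  refine tens_ind (p := fun z => ctr (f + g) z = ctr f z + ctr g z) ?_ ?_ ?_ z
  · simp only [map_zero, add_zero]
  · intro a b ha hb
    simp only [map_add, ha, hb]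
    abel
  · intro x y
    simp only [ctr_ext, LinearMap.add_apply, add_smul]

theorem ctr_smul' {M M' : Rp K Γ} (c : K) (f : M.V →ₗ[K] K) (z : (tens M M').V) :
    ctr (c • f) z = c • ctr f z := by
  refine tens_ind (p := fun z => ctr (c • f) z = c • ctr f z) ?_ ?_ ?_ z
  · simp only [map_zero, smul_zero]
  · intro a b ha hb
    simp only [map_add, ha, hb, smul_add]
  · intro x y
    simp only [ctr_ext, LinearMap.smul_apply, smul_eq_mul, mul_smul]

theorem ctr_zero' {M M' : Rp K Γ} (z : (tens M M').V) :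
    ctr (0 : M.V →ₗ[K] K) z = 0 := by
  have h := ctr_smul' (0 : K) (0 : M.V →ₗ[K] K) z
  rwa [zero_smul, zero_smul] at h

/-- contractions with combinations of functionals -/
theorem ctr_mem {M M' : Rp K Γ} {Φ : Set (M.V →ₗ[K] K)} {F : M.V →ₗ[K] K}
    (hF : F ∈ Submodule.span K Φ) {S : Set (tens M M').V} {S' : Set M'.V}
    (h : ∀ f ∈ Φ, ∀ z ∈ S, ctr f z ∈ Submodule.span K S') {z : (tens M M').V}
    (hz : z ∈ Submodule.span K S) : ctr F z ∈ Submodule.span K S' := by
  have h1 : ∀ f ∈ Φ, ∀ z ∈ Submodule.span K S, ctr f z ∈ Submodule.span K S' := by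
    intro f hf z hz
    induction hz using Submodule.span_induction with
    | mem z hz => exact h f hf z hz
    | zero => rw [map_zero]; exact Submodule.zero_mem _
    | add a b _ _ ha hb => rw [map_add]; exact Submodule.add_mem _ ha hb
    | smul c a _ ha => rw [map_smul]; exact Submodule.smul_mem _ _ ha
  induction hF using Submodule.span_induction with
  | mem f hf => exact h1 f hf z hz
  | zero => rw [ctr_zero']; exact Submodule.zero_mem _
  | add a b _ _ ha hb => rw [ctr_add']; exact Submodule.add_mem _ ha hb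
  | smul c a _ ha => rw [ctr_smul']; exact Submodule.smul_mem _ _ ha

/-- external products with combinations -/
theorem ext_mem {M M' : Rp K Γ} {a : M.V} {S : Set (tens M M').V} {S' : Set M'.V}
    (h : ∀ z ∈ S', (ext a z : (tens M M').V) ∈ Submodule.span K S) {z : M'.V}
    (hz : z ∈ Submodule.span K S') : (ext a z : (tens M M').V) ∈ Submodule.span K S := by
  induction hz using Submodule.span_induction with
  | mem z hz => exact h z hz
  | zero => rw [ext_zero]; exact Submodule.zero_mem _
  | add x y _ _ hx hy => rw [ext_add]; exact Submodule.add_mem _ hx hy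
  | smul c x _ hx => rw [ext_smul]; exact Submodule.smul_mem _ _ hx

variable [CharZero K]

/-- **The decomposition.** -/
theorem FData.decompose {D : WeightData K Γ} {N s : ℕ} {c : Γ →* (ZMod N)ˣ} {X : Coh K Γ}
    (C : FData D N s c X) {fn : ℕ → Set (X.rep.V →ₗ[K] K)} (hd : IsDual X fn) {M : Rp K Γ}
    {G : ℕ → Submodule K M.V} {r : ℕ} {y : (tens X.rep M).V}
    (hy : IsTate D.χ (tens X.rep M) (prodGr X.gr G) r y)
    (h : ∀ i, ¬C.Symm i → ∀ f, C.IsFn i f → ctr f y = 0) :
    ∃ (n : ℕ) (a : Fin n → X.rep.V) (j j' : Fin n → ℕ) (z : Fin n → M.V)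
      (F : Fin n → (X.rep.V →ₗ[K] K)), (∀ l, j l + j' l = r) ∧ (∀ l, a l ∈ X.cl (j l)) ∧
      (∀ l, IsTate D.χ M G (j' l) (z l)) ∧ (∀ l, F l ∈ Submodule.span K (fn (j l))) ∧
      (∀ l, z l = ctr (F l) y) ∧ y = ∑ l, ext (a l) (z l) := by
  classical
  let P : Module.End K X.rep.V := ∑ j ∈ univ.filter C.Symm, C.pr j
  have hP : ∀ x, P x ∈ Submodule.span K {x : X.rep.V | ∃ c : ℕ, x ∈ X.cl c} := by
    intro x
    rw [LinearMap.sum_apply]
    exact Submodule.sum_mem _ fun j hj => C.alg j (mem_filter.1 hj).2 _ (C.pr_mem j x)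
  -- the component of the symmetric characters
  have e1 : ∀ F : X.rep.V →ₗ[K] K, ctr F y = ctr (F ∘ₗ P) y := by
    intro F
    have h3 : F ∘ₗ P = ∑ j ∈ univ.filter C.Symm, F ∘ₗ C.pr j := by
      apply LinearMap.ext
      intro x
      simp only [P, LinearMap.comp_apply, LinearMap.sum_apply, map_sum]
    rw [h3, ctr_sum, C.ctr_fn_sum F y, sum_filter]
    refine sum_congr rfl fun j _ => ?_
    split_ifs with hj
    · rfl
    · exact h j hj _ (C.isFn_pr j F)
  -- the independent algebraic classes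
  obtain ⟨b, hb1, hb2, hb3⟩ := exists_linearIndependent K
    ({x : X.rep.V | ∃ c : ℕ, x ∈ X.cl c} : Set X.rep.V)
  have hbf : Fintype b := by
    have : b.Finite := hb3.setFinite
    exact this.fintype
  choose j hj using fun a : b => hb1 a.2
  have hgr : ∀ l : b, (l : X.rep.V) ∈ X.gr (2 * j l) := fun l => (C.coh.tate _ _ (hj l)).1
  -- the dual functionals
  have hfd : ∀ (c : ℕ) (F : X.rep.V →ₗ[K] K), F ∈ Submodule.span K (fn c) → ∀ m, m ≠ 2 * c →
      ∀ x ∈ X.gr m, F x = 0 := by
    intro c F hF m hm x hx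
    induction hF using Submodule.span_induction with
    | mem f hf => exact hd.degree c f hf m hm x hx
    | zero => rfl
    | add f g _ _ hf hg => rw [LinearMap.add_apply, hf, hg, add_zero]
    | smul a f _ hf => rw [LinearMap.smul_apply, hf, smul_zero]
  obtain ⟨F, hF1, hF⟩ : ∃ F : b → (X.rep.V →ₗ[K] K),
      (∀ l, F l ∈ Submodule.span K (fn (j l))) ∧
        ∀ l l' : b, F l (l' : X.rep.V) = if l = l' then 1 else 0 := by
    have h1 : ∀ l : b, ∃ F ∈ Submodule.span K (fn (j l)),
        ∀ l' : b, F (l' : X.rep.V) = if l = l' then 1 else 0 := by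
      intro l
      have h2 : LinearIndependent K fun m : {m : b // j m = j l} => ((m : b) : X.rep.V) :=
        hb3.comp _ Subtype.val_injective
      obtain ⟨F, hF, hF'⟩ := exists_fn h2 (Φ := fn (j l)) (fun x hx hx' => by
        refine hd.sep (j l) x ?_ hx'
        refine Submodule.span_mono ?_ hx
        rintro _ ⟨m, rfl⟩
        have h3 := hj m
        rwa [m.2] at h3) fun m => if l = (m : b) then 1 else 0
      refine ⟨F, hF, fun l' => ?_⟩
      by_cases h4 : j l' = j l
      · exact hF' ⟨l', h4⟩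
      · rw [hfd _ F hF (2 * j l') (by omega) _ (hgr l'), if_neg fun h5 => h4 (by rw [h5])]
    choose F hF1 hF2 using h1
    exact ⟨F, hF1, hF2⟩
  -- the expansion
  obtain ⟨z, hz⟩ : ∃ z : b → M.V, y = ∑ l : b, ext (l : X.rep.V) (z l) := by
    let B := Module.finBasis K X.rep.V
    have h3 : y = ∑ r, ext (P (B r)) (ctr (B.coord r) y) := by
      have h4 : y = ∑ r, ext (B r) (ctr (B.coord r ∘ₗ P) y) := by
        conv_lhs => rw [expand B y]
        exact sum_congr rfl fun r _ => by rw [← e1]
      have h5 : ∀ y : (tens X.rep M).V, ∑ r, ext (B r) (ctr (B.coord r ∘ₗ P) y) =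
          ∑ r, ext (P (B r)) (ctr (B.coord r) y) := by
        intro y
        refine tens_ind (p := fun y => ∑ r, ext (B r) (ctr (B.coord r ∘ₗ P) y) =
          ∑ r, ext (P (B r)) (ctr (B.coord r) y)) ?_ ?_ ?_ y
        · simp only [map_zero, ext_zero]
        · intro a a' ha ha'
          simp only [map_add, ext_add, sum_add_distrib, ha, ha']
        · intro a z
          simp only [ctr_ext, ext_smul, ← smul_ext, ← sum_ext]
          congr 1
          have e2 : ∀ x : X.rep.V, ∑ r, B.coord r x • B r = x := fun x => B.sum_repr x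
          have e3 : ∑ r, B.coord r a • P (B r) = P a := by
            rw [← sum_congr rfl fun r _ => map_smul P (B.coord r a) (B r), ← map_sum, e2]
          rw [e3]
          exact e2 (P a)
      exact h4.trans (h5 y)
    have h4 : ∀ x, P x ∈ Submodule.span K (Set.range ((↑) : b → X.rep.V)) := by
      intro x
      rw [Subtype.range_coe, hb2]
      exact hP x
    choose γ hγ using fun x => (Submodule.mem_span_range_iff_exists_fun K).1 (h4 x)
    refine ⟨fun l => ∑ r', γ (B r') l • ctr (B.coord r') y, ?_⟩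
    conv_lhs => rw [h3]
    simp only [ext_sum, ext_smul]
    rw [sum_comm]
    refine sum_congr rfl fun r' _ => ?_
    rw [← hγ (B r'), sum_ext]
    exact sum_congr rfl fun l _ => smul_ext _ _ _
  have hz1 : ∀ l, ctr (F l) y = z l := by
    intro l
    conv_lhs => rw [hz, map_sum]
    simp only [ctr_ext, hF, ite_smul, one_smul, zero_smul, sum_ite_eq, mem_univ, if_true]
  obtain ⟨hy1, Δ, hΔ, hy2⟩ := hy
  have hzd : ∀ l, (2 * j l ≤ 2 * r → z l ∈ G (2 * r - 2 * j l)) ∧ (2 * r < 2 * j l → z l = 0) := by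
    intro l
    rw [← hz1]
    exact ctr_deg (hfd _ _ (hF1 l)) hy1
  -- the coefficients are fixed
  have hfix : ∀ l, j l ≤ r → IsFixed D.χ M ((r - j l : ℕ) : ℤ) (z l) := by
    intro l hl
    choose Δ' hΔ' hfix using fun l' : b => (C.coh.tate _ _ (hj l')).2
    have hfi : (Δ ⊓ ⨅ l', Δ' l').FiniteIndex := by
      have : (⨅ l', Δ' l').FiniteIndex := Subgroup.finiteIndex_iInf fun l' => hΔ' l'
      infer_instance
    refine ⟨Δ ⊓ ⨅ l', Δ' l', hfi, fun g hg => ?_⟩
    have hg2 := fun l' => hfix l' g ((Subgroup.mem_iInf.1 hg.2) l')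
    have h3 := hy2 g hg.1
    have h4 : ctr (F l) ((tens X.rep M).ap g y) =
        ((D.χ g ^ (j l : ℤ) : Kˣ) : K) • M.ap g (z l) := by
      conv_lhs => rw [hz, ap_sum, map_sum]
      rw [sum_eq_single l]
      · rw [tens_ap, hg2, smul_ext, map_smul, ctr_ext, hF, if_pos rfl, one_smul]
      · intro l' _ hl'
        rw [tens_ap, hg2, smul_ext, map_smul, ctr_ext, hF, if_neg (Ne.symm hl'), zero_smul,
          smul_zero]
      · intro h5
        exact absurd (mem_univ _) h5
    rw [h3, map_smul, hz1] at h4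
    have h5 : ((D.χ g ^ (j l : ℤ) : Kˣ) : K) ≠ 0 := Units.ne_zero _
    have h6 : ((D.χ g ^ (r : ℤ) : Kˣ) : K) = ((D.χ g ^ (j l : ℤ) : Kˣ) : K) *
        ((D.χ g ^ ((r - j l : ℕ) : ℤ) : Kˣ) : K) := by
      rw [← Units.val_mul, ← zpow_add]
      congr 3
      omega
    rw [h6, mul_smul] at h4
    exact (smul_right_injective _ h5 h4).symm
  -- the indices
  let κ := {l : b // j l ≤ r}
  let e : κ ≃ Fin (Fintype.card κ) := Fintype.equivFin κ
  refine ⟨Fintype.card κ, fun l => ((e.symm l : b) : X.rep.V), fun l => j (e.symm l),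
    fun l => r - j (e.symm l), fun l => z (e.symm l), fun l => F (e.symm l), fun l => ?_,
    fun l => hj _, fun l => ⟨?_, hfix _ (e.symm l).2⟩, fun l => hF1 _, fun l => (hz1 _).symm, ?_⟩
  · exact Nat.add_sub_cancel' (e.symm l).2
  · have h3 := (hzd (e.symm l)).1 (Nat.mul_le_mul_left 2 (e.symm l).2)
    rwa [← Nat.mul_sub] at h3
  · rw [e.symm.sum_comp (fun l : κ => (ext ((l : b) : X.rep.V) (z l) : (tens X.rep M).V))]
    conv_lhs => rw [hz]
    have h9 : _ = ∑ l : κ, (ext ((l : b) : X.rep.V) (z l) : (tens X.rep M).V) :=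
      Finset.sum_subtype (p := fun l : b => j l ≤ r) (F := inferInstanceAs (Fintype κ))
        (univ.filter fun l : b => j l ≤ r) (fun x => by simp)
        (fun l : b => (ext (l : X.rep.V) (z l) : (tens X.rep M).V))
    refine Eq.trans ?_ h9
    rw [sum_filter]
    refine sum_congr rfl fun l _ => ?_
    split_ifs with h10
    · rfl
    · rw [(hzd l).2 (by omega), ext_zero]

end Pool.Agent.U231.LT
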