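import Pool.Agent.U231.FT.Defs
import Pool.Agent.U231.HF.Large

/-!
# Galois representations of varieties of Fermat type: definitions

Let `Γ` be the absolute Galois group of the field `k`.
-/

set_option autoImplicit false

open TensorProduct

namespace Pool.Agent.U231.LT

open Pool.Agent.Y95.ZT.S Pool.Agent.U231.LP Pool.Agent.U231.FT

/-- The étale cohomology with coefficients `K` of a variety `Y` over `k`: the representation `rep` of
`Γ` on the sum of the groups `H^m(Y)`, the subspaces `gr m` for `H^m(Y)`, and the sets `cl c` of the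
classes of algebraic cycles of codimension `c` over the algebraic closure of `k` (the Tate twist is
suppressed). -/
structure Coh (K : Type) [Field K] (Γ : Type) [Group Γ] where
  /-- the representation -/
  rep : Rp K Γ
  /-- the part of degree `m` -/
  gr : ℕ → Submodule K rep.V
  /-- the classes of algebraic cycles -/
  cl : ℕ → Set rep.V

variable {K : Type} [Field K] {Γ : Type} [Group Γ]

/-- The tensor product of two representations. -/
noncomputable def tens (M M' : Rp K Γ) : Rp K Γ where
  V := M.V ⊗[K] M'.V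
  act := Representation.tprod M.act M'.act

/-- The external product of two elements. -/
def ext {M M' : Rp K Γ} (x : M.V) (y : M'.V) : (tens M M').V := x ⊗ₜ[K] y

/-- The map `x ⊗ y ↦ f x • y`. -/
noncomputable def ctr {M M' : Rp K Γ} (f : M.V →ₗ[K] K) : (tens M M').V →ₗ[K] M'.V :=
  (TensorProduct.lid K M'.V).toLinearMap ∘ₗ f.rTensor M'.V

/-- The degrees of a tensor product. -/
noncomputable def prodGr {M M' : Rp K Γ} (gr : ℕ → Submodule K M.V) (gr' : ℕ → Submodule K M'.V) (n : ℕ) :
    Submodule K (tens M M').V :=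
  Submodule.span K {c | ∃ i j x y, i + j = n ∧ x ∈ gr i ∧ y ∈ gr' j ∧ ext x y = c}

/-- The action on `x` of a subgroup of finite index is the multiplication by `χ ^ r`. -/
def IsFixed (χ : Γ →* Kˣ) (M : Rp K Γ) (r : ℤ) (x : M.V) : Prop :=
  ∃ Δ : Subgroup Γ, Δ.FiniteIndex ∧ ∀ g ∈ Δ, M.ap g x = ((χ g ^ r : Kˣ) : K) • x

/-- The element `x` is a Tate class of codimension `r`: it is of degree `2 r`, and the action of a
subgroup of finite index on `x` is the multiplication by `χ ^ r`. -/
def IsTate (χ : Γ →* Kˣ) (M : Rp K Γ) (gr : ℕ → Submodule K M.V) (r : ℕ) (x : M.V) : Prop :=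
  x ∈ gr (2 * r) ∧ IsFixed χ M r x

/-- The spaces `gr m` are a grading, and the classes of algebraic cycles are Tate classes. -/
structure IsCoh (χ : Γ →* Kˣ) (Y : Coh K Γ) : Prop where
  indep : iSupIndep Y.gr
  top : ∀ x, x ∈ iSup Y.gr
  tate : ∀ c, ∀ x ∈ Y.cl c, IsTate χ Y.rep Y.gr c x

/-- The space `X` is the direct sum of subspaces `V i`, and every `V i` is contained in `gr (d i)` and
has a character `a i`, a multiset of at most `s` residues modulo `N`. On `V i` the weight operator is
the multiplication by `d i / 2 + ∑ saw x / (2 N)`, where `x` runs through `a i`. An element `g` of `Γ`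
maps the subspace with the character `c g • a i` to `V i`. If `a i = - a i` then `V i` is spanned by
classes of algebraic cycles. -/
structure IsFermatRep (D : WeightData K Γ) (N s : ℕ) (c : Γ →* (ZMod N)ˣ) (X : Coh K Γ) {n : ℕ}
    (V : Fin n → Submodule K X.rep.V) (d : Fin n → ℕ) (a : Fin n → Multiset (ZMod N)) :
    Prop where
  indep : iSupIndep V
  top : ∀ x, x ∈ iSup V
  degree : ∀ i, V i ≤ X.gr (d i)
  card : ∀ i, (a i).card ≤ s
  weight : ∀ i, ∀ x ∈ V i,
    (2 * N : K) • D.Θ X.rep x = ((N * d i + ((a i).map saw).sum : ℤ) : K) • x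
  perm : ∀ g, ∃ π : Equiv.Perm (Fin n), ∀ i, d (π i) = d i ∧
    a (π i) = (a i).map (fun x => (c g : ZMod N) * x) ∧ ∀ x ∈ V (π i), X.rep.ap g x ∈ V i
  alg : ∀ i, (a i).map (fun x => -x) = a i → ∀ x ∈ V i,
    x ∈ Submodule.span K {x | ∃ c : ℕ, x ∈ X.cl c}

/-- The sets `fn c` consist of the maps `x ↦ deg(x · b)` on the cohomology of `X` for algebraic cycles
`b` of dimension `c`: they vanish on the groups of degrees different from `2 c`; and a combination of
classes of algebraic cycles of codimension `c` for which all values are zero is zero. -/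
structure IsDual (X : Coh K Γ) (fn : ℕ → Set (X.rep.V →ₗ[K] K)) : Prop where
  degree : ∀ c, ∀ f ∈ fn c, ∀ m, m ≠ 2 * c → ∀ x ∈ X.gr m, f x = 0
  sep : ∀ c x, x ∈ Submodule.span K (X.cl c) → (∀ f ∈ fn c, f x = 0) → x = 0

/-- The `X i` are the cohomologies of varieties of Fermat type of prime degrees `N i`, with at most
`s i` entries in the characters, and with independent `c i`; and the `fn i c` are the maps
`x ↦ deg(x · b)` for algebraic cycles `b` of dimension `c`. -/
structure IsFermatFamily (D : WeightData K Γ) {ι : Type} (N s : ι → ℕ) (X : ι → Coh K Γ)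
    (fn : ∀ i, ℕ → Set ((X i).rep.V →ₗ[K] K)) : Prop where
  prime : ∀ i, (N i).Prime
  coh : ∀ i, IsCoh D.χ (X i)
  one : ∀ i, ∃ x ∈ (X i).cl 0, x ≠ 0
  dual : ∀ i, IsDual (X i) (fn i)
  type : ∃ c : ∀ i, Γ →* (ZMod (N i))ˣ, IsIndependent c ∧ ∀ i, ∃ (n : ℕ)
    (V : Fin n → Submodule K (X i).rep.V) (d : Fin n → ℕ) (a : Fin n → Multiset (ZMod (N i))),
    IsFermatRep D (N i) (s i) (c i) (X i) V d a

/-- The element `x` is pure: all its conjugates are eigenvectors of the weight operator. -/
def IsPure (D : WeightData K Γ) (M : Rp K Γ) (x : M.V) : Prop :=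
  ∀ g : Γ, ∃ c : K, D.Θ M (M.ap g x) = c • M.ap g x

/-- The space `M` is the direct sum of stable subspaces, each of which is of dimension at most `B`
or contains no pure element different from `0`. -/
def HasPieces (D : WeightData K Γ) (B : ℕ) (M : Rp K Γ) : Prop :=
  ∃ (m : ℕ) (U : Fin m → Submodule K M.V), iSupIndep U ∧ (∀ x, x ∈ iSup U) ∧
    ∀ i, (∀ g, ∀ x ∈ U i, M.ap g x ∈ U i) ∧
      (Module.finrank K (U i) ≤ B ∨ ∀ x ∈ U i, IsPure D M x → x = 0)

variable {ι : Type} (X : ι → Coh K Γ) (Z : Coh K Γ)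

/-- The cohomology of `X i₁ × (X i₂ × (⋯ × Z))`. -/
noncomputable def space : List ι → Rp K Γ
  | [] => Z.rep
  | i :: L => tens (X i).rep (space L)

/-- The degrees of the cohomology of `X i₁ × (X i₂ × (⋯ × Z))`. -/
noncomputable def degrees : ∀ L : List ι, ℕ → Submodule K (space X Z L).V
  | [] => Z.gr
  | i :: L => prodGr (X i).gr (degrees L)

/-- The element `x` is a Tate class of codimension `r` on `X i₁ × (X i₂ × (⋯ × Z))`. -/
def TateClass (χ : Γ →* Kˣ) (L : List ι) (r : ℕ) (x : (space X Z L).V) : Prop :=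
  IsTate χ (space X Z L) (degrees X Z L) r x

/-- The element `x` of `H^(2r)` of `X i₁ × (X i₂ × (⋯ × Z))` is a sum of external products
`a_1 × ⋯ × a_n × z` of classes of algebraic cycles `a_j` on the `X i` and Tate classes `z` on `Z`. -/
def IsExtSum (χ : Γ →* Kˣ) : ∀ L : List ι, ℕ → (space X Z L).V → Prop
  | [], r, x => IsTate χ Z.rep Z.gr r x
  | i :: L, r, x => ∃ (n : ℕ) (a : Fin n → (X i).rep.V) (y : Fin n → (space X Z L).V),
      (∀ l, ∃ c r' : ℕ, c + r' = r ∧ a l ∈ (X i).cl c ∧ IsExtSum χ L r' (y l)) ∧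
        x = ∑ l, ext (a l) (y l)

end Pool.Agent.U231.LT
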