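import Pool.Agent.U231.LT.Defs

/-!
# Reductions of Tate classes: definitions
-/

set_option autoImplicit false

open TensorProduct

namespace Pool.Agent.U231.LT

open Pool.Agent.Y95.ZT.S Pool.Agent.U231.LP Pool.Agent.U231.FT

variable {K : Type} [Field K] {Γ : Type} [Group Γ] {ι : Type}

/-- For every point `p` in `P`, a point of a model at which the `X i` and `Z` have good reduction, and
every `r` the set `red L p r` consists of the classes of the algebraic cycles of codimension `r` on the
geometric reduction of `X i₁ × (X i₂ × (⋯ × Z))` at `p`, transported by the specialization isomorphism.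
The external products of classes of algebraic cycles on `X i` and such classes are such classes; and
the push-forwards to the second factor of the products of such classes with (the reductions of)
algebraic cycles on `X i` are such classes, or combinations of them. -/
structure IsReductions (X : ι → Coh K Γ) (Z : Coh K Γ)
    (fn : ∀ i, ℕ → Set ((X i).rep.V →ₗ[K] K)) {P : Type}
    (red : ∀ L : List ι, P → ℕ → Set (space X Z L).V) : Prop where
  ext : ∀ (i : ι) (L : List ι) (p : P) (c r : ℕ), ∀ a ∈ (X i).cl c, ∀ y ∈ red L p r,
    ext (M' := space X Z L) a y ∈ red (i :: L) p (c + r)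
  push : ∀ (i : ι) (L : List ι) (p : P) (c r : ℕ), ∀ f ∈ fn i c, ∀ y ∈ red (i :: L) p (c + r),
    ctr (M' := space X Z L) f y ∈ Submodule.span K (red L p r)

variable {X : ι → Coh K Γ} {Z : Coh K Γ} {P : Type}

/-- The reduction of `y` at `p` is algebraic, i.e. a combination of classes of algebraic cycles of
codimension `r`. -/
def IsAlgebraicAt (red : ∀ L : List ι, P → ℕ → Set (space X Z L).V) (L : List ι) (p : P) (r : ℕ)
    (y : (space X Z L).V) : Prop :=
  y ∈ Submodule.span K (red L p r)

/-- The reductions at `p` of all Tate classes of codimension at most `r` on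
`X i₁ × (X i₂ × (⋯ × Z))` are algebraic. -/
def AllAlgebraicAt (χ : Γ →* Kˣ) (red : ∀ L : List ι, P → ℕ → Set (space X Z L).V) (L : List ι)
    (r : ℕ) (p : P) : Prop :=
  ∀ j ≤ r, ∀ y, TateClass X Z χ L j y → IsAlgebraicAt red L p j y

/-- Deligne's question for `X i₁ × (X i₂ × (⋯ × Z))` and the codimensions at most `r`: for every Tate
class there is a point `p` at which the reduction is algebraic. -/
def DeligneQuestion (χ : Γ →* Kˣ) (red : ∀ L : List ι, P → ℕ → Set (space X Z L).V) (L : List ι)
    (r : ℕ) : Prop :=
  ∀ j ≤ r, ∀ y, TateClass X Z χ L j y → ∃ p, IsAlgebraicAt red L p j y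

/-- There are finitely many Tate classes of codimension at most `r` on `Z`, such that for every point
`p` the reduction of `y` at `p` is algebraic if and only if the reductions of all of them are. -/
def IsDecidedByFactor (χ : Γ →* Kˣ) (red : ∀ L : List ι, P → ℕ → Set (space X Z L).V) (L : List ι)
    (r : ℕ) (y : (space X Z L).V) : Prop :=
  ∃ T : Set (ℕ × (space X Z []).V), T.Finite ∧
    (∀ t ∈ T, t.1 ≤ r ∧ TateClass X Z χ [] t.1 t.2) ∧
      ∀ p, (IsAlgebraicAt red L p r y ↔ ∀ t ∈ T, IsAlgebraicAt red [] p t.1 t.2)

/-- There is a Tate class on `X i₁ × (X i₂ × (⋯ × Z))` such that for every point `p` its reduction at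
`p` is algebraic if and only if the reduction of the Tate class `z` on `Z` is. -/
def HasPullBack (χ : Γ →* Kˣ) (red : ∀ L : List ι, P → ℕ → Set (space X Z L).V) (L : List ι)
    (r : ℕ) (z : (space X Z []).V) : Prop :=
  ∃ y, TateClass X Z χ L r y ∧ ∀ p, (IsAlgebraicAt red L p r y ↔ IsAlgebraicAt red [] p r z)

/-- The answers to all questions on the algebraicity of the reductions of Tate classes for
`X i₁ × (X i₂ × (⋯ × Z))` depend only on `Z`. -/
structure DependsOnFactor (X : ι → Coh K Γ) (Z : Coh K Γ) (χ : Γ →* Kˣ)
    (red : ∀ L : List ι, P → ℕ → Set (space X Z L).V) (L : List ι) : Prop where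
  extSum : ∀ r y, TateClass X Z χ L r y → IsExtSum X Z χ L r y
  decided : ∀ r y, TateClass X Z χ L r y → IsDecidedByFactor χ red L r y
  pullBack : ∀ r z, TateClass X Z χ [] r z → HasPullBack χ red L r z
  all : ∀ r p, AllAlgebraicAt χ red L r p ↔ AllAlgebraicAt χ red [] r p
  yes : ∀ r p, AllAlgebraicAt χ red [] r p → DeligneQuestion χ red L r
  converse : ∀ r, DeligneQuestion χ red L r → DeligneQuestion χ red [] r

end Pool.Agent.U231.LT
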