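import Pool.Agent.U231.LT.Dec
import Pool.Agent.U231.LT.RedDefs

/-!
# Galois representations of varieties of Fermat type: the theorem
-/

set_option autoImplicit false
set_option linter.unusedSectionVars false

open TensorProduct Finset

namespace Pool.Agent.U231.LT

open Pool.Agent.Y95.ZT.S Pool.Agent.U231.LP Pool.Agent.U231.FT Pool.Agent.U231.HF

variable {K : Type} [Field K] {Γ : Type} [Group Γ] [CharZero K] {D : WeightData K Γ}
  {ι : Type} {N s : ι → ℕ} {X : ι → Coh K Γ} {Z : Coh K Γ}
  {fn : ∀ i, ℕ → Set ((X i).rep.V →ₗ[K] K)}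

theorem IsFermatFamily.exists_data (h : IsFermatFamily D N s X fn) :
    ∃ c : ∀ i, Γ →* (ZMod (N i))ˣ, IsIndependent c ∧
      Nonempty (∀ i, FData D (N i) (s i) (c i) (X i)) := by
  obtain ⟨c, hc, h1⟩ := h.type
  refine ⟨c, hc, ⟨fun i => ?_⟩⟩
  choose n V d a h2 using h1
  choose π hπ using (h2 i).perm
  exact ⟨n i, V i, d i, a i, π,
    (DirectSum.isInternal_submodule_iff_iSupIndep_and_iSup_eq_top (V i)).2
      ⟨(h2 i).indep, eq_top_iff.2 fun x _ => (h2 i).top x⟩,
    (h2 i).degree, (h2 i).card, (h2 i).weight, fun g j => (hπ g j).1, fun g j => (hπ g j).2.1,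
    fun g j => (hπ g j).2.2, (h2 i).alg, h.prime i, h.coh i⟩

/-- **One step of the decomposition.** -/
theorem step (hD : IsNormalized D) (hX : IsFermatFamily D N s X fn) {B : ℕ}
    (hZ : HasPieces D B Z.rep) (hN : ∀ i, IsLarge (N i) (s i) B) {i : ι} {L : List ι}
    (hL : (i :: L).Nodup) {r : ℕ} {y : (space X Z (i :: L)).V}
    (hy : TateClass X Z D.χ (i :: L) r y) :
    ∃ (n : ℕ) (a : Fin n → (X i).rep.V) (j j' : Fin n → ℕ) (z : Fin n → (space X Z L).V)
      (F : Fin n → ((X i).rep.V →ₗ[K] K)), (∀ l, j l + j' l = r) ∧ (∀ l, a l ∈ (X i).cl (j l)) ∧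
      (∀ l, TateClass X Z D.χ L (j' l) (z l)) ∧
      (∀ l, F l ∈ Submodule.span K (fn i (j l))) ∧
      (∀ l, z l = ctr (M := (X i).rep) (F l) y) ∧
      y = ∑ l, ext (M := (X i).rep) (M' := space X Z L) (a l) (z l) := by
  classical
  obtain ⟨c, hc, ⟨C⟩⟩ := hX.exists_data
  obtain ⟨h1, h2⟩ := List.nodup_cons.1 hL
  obtain ⟨Q⟩ := exists_funs (Z := Z) C L h2
  have hi : i ∉ L.toFinset := fun h => h1 (List.mem_toFinset.1 h)
  refine (C i).decompose (hX.dual i) (M := space X Z L) (G := degrees X Z L) hy ?_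
  intro j hj f hf
  apply Q.sep
  intro t φ hφ
  have h3 : Q.Φ t = Q.Φ (Function.update t i (some j)) := Q.ext _ _ fun a ha => by
    rw [Function.update_of_ne (fun h4 : a = i => hi (h4 ▸ ha))]
  have h4 : φ ∘ₗ ctr f ∈ (Funs.step C Q hi).Φ (Function.update t i (some j)) := by
    refine ⟨f, ?_, φ, h3 ▸ hφ, rfl⟩
    rw [Function.update_self]
    exact ⟨j, rfl, hf⟩
  refine vanish C (Funs.step C Q hi) hD (smallPieces hZ) hN (fun S t => hc S t) hy.2
    ⟨i, mem_insert_self _ _, ?_⟩ h4
  rw [Function.update_self]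
  exact ⟨j, rfl, hj⟩

/-- **All Tate classes are sums of external products.** -/
theorem extSum (hD : IsNormalized D) (hX : IsFermatFamily D N s X fn) {B : ℕ}
    (hZ : HasPieces D B Z.rep) (hN : ∀ i, IsLarge (N i) (s i) B) :
    ∀ (L : List ι), L.Nodup → ∀ (r : ℕ) (y : (space X Z L).V), TateClass X Z D.χ L r y →
      IsExtSum X Z D.χ L r y
  | [], _, _, _, hy => hy
  | i :: L, hL, r, y, hy => by
    obtain ⟨n, a, j, j', z, F, h1, h2, h3, -, -, h6⟩ := step hD hX hZ hN hL hy
    exact ⟨n, a, z, fun l => ⟨j l, j' l, h1 l, h2 l,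
      extSum hD hX hZ hN L (List.nodup_cons.1 hL).2 _ _ (h3 l)⟩, h6⟩

variable {P : Type} {red : ∀ L : List ι, P → ℕ → Set (space X Z L).V}

/-- **The Tate classes which decide the algebraicity of the reductions.** -/
theorem exists_test (hD : IsNormalized D) (hX : IsFermatFamily D N s X fn) {B : ℕ}
    (hZ : HasPieces D B Z.rep) (hN : ∀ i, IsLarge (N i) (s i) B)
    (hR : IsReductions X Z fn red) :
    ∀ (L : List ι), L.Nodup → ∀ (r : ℕ) (y : (space X Z L).V), TateClass X Z D.χ L r y →
      ∃ T : Set (ℕ × (space X Z []).V), T.Finite ∧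
        (∀ t ∈ T, t.1 ≤ r ∧ TateClass X Z D.χ [] t.1 t.2) ∧
        ∀ p, (y ∈ Submodule.span K (red L p r) ↔
          ∀ t ∈ T, t.2 ∈ Submodule.span K (red [] p t.1))
  | [], _, r, y, hy => by
    refine ⟨{(r, y)}, Set.finite_singleton _, ?_, fun p => ?_⟩
    · rintro _ rfl
      exact ⟨le_rfl, hy⟩
    · constructor
      · rintro h _ rfl
        exact h
      · intro h
        exact h (r, y) rfl
  | i :: L, hL, r, y, hy => by
    obtain ⟨n, a, j, j', z, F, h1, h2, h3, h4, h5, h6⟩ := step hD hX hZ hN hL hy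
    have ih := fun l => exists_test hD hX hZ hN hR L (List.nodup_cons.1 hL).2 _ _ (h3 l)
    choose T hT1 hT2 hT3 using ih
    refine ⟨⋃ l, T l, Set.finite_iUnion hT1, ?_, fun p => ?_⟩
    · intro t ht
      obtain ⟨l, hl⟩ := Set.mem_iUnion.1 ht
      have h7 := hT2 l t hl
      have h8 := h1 l
      exact ⟨by omega, h7.2⟩
    · have key : y ∈ Submodule.span K (red (i :: L) p r) ↔
          ∀ l, z l ∈ Submodule.span K (red L p (j' l)) := by
        constructor
        · intro h l
          rw [h5 l]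
          refine ctr_mem (h4 l) (S := red (i :: L) p (j l + j' l)) ?_ (by rw [h1 l]; exact h)
          intro f hf z hz
          exact hR.push i L p _ _ f hf z hz
        · intro h
          rw [h6]
          refine Submodule.sum_mem _ fun l _ => ?_
          refine ext_mem (S' := red L p (j' l)) ?_ (h l)
          intro w hw
          have h9 := hR.ext i L p _ _ _ (h2 l) w hw
          rw [h1 l] at h9
          exact Submodule.subset_span h9
      rw [key]
      constructor
      · intro h t ht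
        obtain ⟨l, hl⟩ := Set.mem_iUnion.1 ht
        exact (hT3 l p).1 (h l) t hl
      · intro h l
        exact (hT3 l p).2 fun t ht => h t (Set.mem_iUnion.2 ⟨l, ht⟩)

/-- **Pull-backs of Tate classes.** -/
theorem exists_pull (hX : IsFermatFamily D N s X fn) (hR : IsReductions X Z fn red) :
    ∀ (L : List ι) (r : ℕ) (z : (space X Z []).V), TateClass X Z D.χ [] r z →
      ∃ y : (space X Z L).V, TateClass X Z D.χ L r y ∧
        ∀ p, (y ∈ Submodule.span K (red L p r) ↔ z ∈ Submodule.span K (red [] p r))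
  | [], _, z, hz => ⟨z, hz, fun _ => Iff.rfl⟩
  | i :: L, r, z, hz => by
    obtain ⟨w, hw, hwp⟩ := exists_pull hX hR L r z hz
    obtain ⟨o, ho, ho0⟩ := hX.one i
    obtain ⟨f, hf, hfo⟩ : ∃ f ∈ fn i 0, f o ≠ 0 := by
      by_contra hcon
      push Not at hcon
      exact ho0 ((hX.dual i).sep 0 o (Submodule.subset_span ho) hcon)
    obtain ⟨ho1, Δ', hΔ', ho2⟩ := (hX.coh i).tate 0 o ho
    obtain ⟨hw1, Δ, hΔ, hw2⟩ := hw
    refine ⟨ext (M := (X i).rep) (M' := space X Z L) o w, ⟨?_, Δ ⊓ Δ', inferInstance, ?_⟩,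
      fun p => ?_⟩
    · change (ext o w : (tens (X i).rep (space X Z L)).V) ∈
        prodGr (X i).gr (degrees X Z L) (2 * r)
      exact Submodule.subset_span ⟨0, 2 * r, o, w, by omega, ho1, hw1, rfl⟩
    · intro g hg
      change (tens (X i).rep (space X Z L)).ap g (ext o w) =
        ((D.χ g ^ (r : ℤ) : Kˣ) : K) • (ext o w : (tens (X i).rep (space X Z L)).V)
      rw [tens_ap, ho2 g hg.2, hw2 g hg.1, Nat.cast_zero, zpow_zero, Units.val_one, one_smul]
      exact ext_smul _ _ _
    · rw [← hwp p]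
      constructor
      · intro h
        have h1 : ctr (M' := space X Z L) f (ext o w) ∈ Submodule.span K (red L p r) :=
          ctr_mem (Submodule.subset_span hf) (S := red (i :: L) p (0 + r))
            (fun f hf z hz => hR.push i L p _ _ f hf z hz) (by rw [Nat.zero_add]; exact h)
        rw [ctr_ext] at h1
        have h2 := Submodule.smul_mem _ (f o)⁻¹ h1
        rwa [smul_smul, inv_mul_cancel₀ hfo, one_smul] at h2
      · intro h
        refine ext_mem (S' := red L p r) ?_ h
        intro w hw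
        have h9 := hR.ext i L p _ _ _ ho w hw
        rw [Nat.zero_add] at h9
        exact Submodule.subset_span h9

end Pool.Agent.U231.LT
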