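import Pool.Agent.U231.LT.Defs
import Pool.Agent.U231.LP.Wt
import Pool.Agent.U231.HF.Ari

/-!
# Galois representations of varieties of Fermat type: functionals
-/

set_option autoImplicit false
set_option linter.unusedSectionVars false

open TensorProduct Finset

namespace Pool.Agent.U231.LT

open Pool.Agent.Y95.ZT.S Pool.Agent.U231.LP Pool.Agent.U231.FT Pool.Agent.U231.HF

theorem exists_projectors' {K V : Type} [Field K] [AddCommGroup V] [Module K V] {m : ℕ}
    {U : Fin m → Submodule K V} (hU : DirectSum.IsInternal U) :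
    ∃ p : Fin m → Module.End K V, (∀ i j y, y ∈ U j → p i y = if i = j then y else 0) ∧
      ∀ y, ∑ i, p i y = y := by
  classical
  let p : Fin m → Module.End K V := fun i =>
    (U i).subtype ∘ₗ (DirectSum.component K (Fin m) (fun i => U i) i) ∘ₗ
      (LinearEquiv.ofBijective (DirectSum.coeLinearMap U) hU).symm.toLinearMap
  have hpo : ∀ i j y, y ∈ U j → p i y = if i = j then y else 0 := by
    intro i j y hy
    have h1 : (LinearEquiv.ofBijective (DirectSum.coeLinearMap U) hU).symm y =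
        DirectSum.lof K (Fin m) (fun i => U i) j ⟨y, hy⟩ := by
      rw [LinearEquiv.symm_apply_eq]
      exact (DirectSum.coeLinearMap_lof U j ⟨y, hy⟩).symm
    change ((DirectSum.component K (Fin m) (fun i => U i) i)
      ((LinearEquiv.ofBijective (DirectSum.coeLinearMap U) hU).symm y) : V) = _
    rw [h1]
    split_ifs with h
    · subst h
      rw [DirectSum.component.lof_self]
    · rw [DirectSum.component.of, dif_neg (Ne.symm h)]
      rfl
  refine ⟨p, hpo, fun y => ?_⟩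
  have h1 : y ∈ ⨆ i, U i := hU.submodule_iSup_eq_top ▸ Submodule.mem_top
  induction h1 using Submodule.iSup_induction' with
  | mem i y hy =>
    rw [sum_congr rfl fun j _ => hpo j i y hy, sum_ite_eq' univ i, if_pos (mem_univ _)]
  | zero => simp
  | add y z _ _ hy hz =>
    rw [sum_congr rfl fun i _ => map_add (p i) y z, sum_add_distrib, hy, hz]

variable {K : Type} [Field K] {Γ : Type} [Group Γ]

section tensor

variable {M M' : Rp K Γ}

theorem ctr_ext (f : M.V →ₗ[K] K) (x : M.V) (y : M'.V) : ctr f (ext x y) = f x • y := by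
  change TensorProduct.lid K M'.V (f.rTensor M'.V (x ⊗ₜ[K] y)) = _
  rw [LinearMap.rTensor_tmul, TensorProduct.lid_tmul]

theorem tens_ap (g : Γ) (x : M.V) (y : M'.V) :
    (tens M M').ap g (ext x y) = ext (M.ap g x) (M'.ap g y) :=
  TensorProduct.map_tmul _ _ _ _

/-- induction -/
theorem tens_ind {p : (tens M M').V → Prop} (h0 : p 0) (hadd : ∀ a b, p a → p b → p (a + b))
    (h : ∀ x y, p (ext x y)) (z : (tens M M').V) : p z :=
  TensorProduct.induction_on (motive := p) z h0 h hadd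

theorem ap_add (M : Rp K Γ) (g : Γ) (x y : M.V) : M.ap g (x + y) = M.ap g x + M.ap g y :=
  map_add (M.act g) x y

theorem ap_zero (M : Rp K Γ) (g : Γ) : M.ap g (0 : M.V) = 0 := map_zero (M.act g)

theorem ap_smul (M : Rp K Γ) (g : Γ) (c : K) (x : M.V) : M.ap g (c • x) = c • M.ap g x :=
  map_smul (M.act g) c x

theorem ap_sum (M : Rp K Γ) (g : Γ) {κ : Type*} (s : Finset κ) (f : κ → M.V) :
    M.ap g (∑ l ∈ s, f l) = ∑ l ∈ s, M.ap g (f l) := map_sum (M.act g) f s

theorem ap_mul (M : Rp K Γ) (g h : Γ) (x : M.V) : M.ap (g * h) x = M.ap g (M.ap h x) := by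
  change M.act (g * h) x = _
  rw [map_mul]
  rfl

theorem ap_one (M : Rp K Γ) (x : M.V) : M.ap 1 x = x := by
  change M.act 1 x = _
  rw [map_one]
  rfl

theorem ap_inv (M : Rp K Γ) (g : Γ) (x : M.V) : M.ap g (M.ap g⁻¹ x) = x := by
  rw [← ap_mul, mul_inv_cancel, ap_one]

theorem inv_ap (M : Rp K Γ) (g : Γ) (x : M.V) : M.ap g⁻¹ (M.ap g x) = x := by
  rw [← ap_mul, inv_mul_cancel, ap_one]

/-- external products are additive -/
theorem ext_add (x : M.V) (y y' : M'.V) : ext x (y + y') = ext x y + ext x y' :=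
  TensorProduct.tmul_add _ _ _

theorem add_ext (x x' : M.V) (y : M'.V) : ext (x + x') y = ext x y + ext x' y :=
  TensorProduct.add_tmul _ _ _

theorem ext_smul (c : K) (x : M.V) (y : M'.V) : ext x (c • y) = c • ext x y :=
  TensorProduct.tmul_smul _ _ _

theorem smul_ext (c : K) (x : M.V) (y : M'.V) : ext (c • x) y = c • ext x y :=
  (TensorProduct.smul_tmul' _ _ _).symm

theorem ext_zero (x : M.V) : ext x (0 : M'.V) = 0 := TensorProduct.tmul_zero _ _

theorem zero_ext (y : M'.V) : ext (0 : M.V) y = 0 := TensorProduct.zero_tmul _ _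

theorem ext_sum (x : M.V) {κ : Type*} (s : Finset κ) (f : κ → M'.V) :
    ext x (∑ l ∈ s, f l) = ∑ l ∈ s, ext x (f l) := TensorProduct.tmul_sum _ _ _

theorem sum_ext (y : M'.V) {κ : Type*} (s : Finset κ) (f : κ → M.V) :
    ext (∑ l ∈ s, f l) y = ∑ l ∈ s, ext (f l) y := TensorProduct.sum_tmul _ _ _

/-- the action and contractions -/
theorem ctr_ap (f : M.V →ₗ[K] K) (g : Γ) (z : (tens M M').V) :
    ctr f ((tens M M').ap g z) = M'.ap g (ctr (f ∘ₗ M.act g) z) := by
  refine tens_ind (p := fun z => ctr f ((tens M M').ap g z) = M'.ap g (ctr (f ∘ₗ M.act g) z))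
    ?_ ?_ ?_ z
  · rw [ap_zero, map_zero, map_zero, ap_zero]
  · intro a b ha hb
    rw [ap_add, map_add, map_add, ap_add, ha, hb]
  · intro x y
    rw [tens_ap, ctr_ext, ctr_ext, ap_smul]
    rfl

/-- the weight operator on external products -/
theorem theta_ext (D : WeightData K Γ) (x : M.V) (y : M'.V) :
    D.Θ (tens M M') (ext x y) = ext (D.Θ M x) y + ext x (D.Θ M' y) :=
  (bil_comm D (M₁ := M) (M₂ := M') (M' := tens M M') (TensorProduct.mk K M.V M'.V)
    (fun g x y => (tens_ap g x y).symm) x y).symm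

/-- the weight operator and contractions -/
theorem ctr_theta (D : WeightData K Γ) {f : M.V →ₗ[K] K} {lam : K}
    (hf : ∀ x, f (D.Θ M x) = lam * f x) (z : (tens M M').V) :
    D.Θ M' (ctr f z) = ctr f (D.Θ (tens M M') z) - lam • ctr f z := by
  refine tens_ind (p := fun z => D.Θ M' (ctr f z) =
    ctr f (D.Θ (tens M M') z) - lam • ctr f z) ?_ ?_ ?_ z
  · simp only [map_zero, smul_zero, sub_zero]
  · intro a b ha hb
    simp only [map_add, smul_add, ha, hb]
    abel
  · intro x y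
    rw [theta_ext, map_add, ctr_ext, ctr_ext, ctr_ext, hf, map_smul, smul_smul]
    abel

theorem ctr_sum {κ : Type*} (s : Finset κ) (F : κ → (M.V →ₗ[K] K)) (z : (tens M M').V) :
    ctr (∑ j ∈ s, F j) z = ∑ j ∈ s, ctr (F j) z := by
  refine tens_ind (p := fun z => ctr (∑ j ∈ s, F j) z = ∑ j ∈ s, ctr (F j) z) ?_ ?_ ?_ z
  · simp only [map_zero, sum_const_zero]
  · intro a b ha hb
    simp only [map_add, ha, hb, sum_add_distrib]
  · intro x y
    simp only [ctr_ext, LinearMap.sum_apply, sum_smul]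

/-- expansions -/
theorem expand {κ : Type*} [Fintype κ] (b : Module.Basis κ K M.V) (z : (tens M M').V) :
    z = ∑ r, ext (b r) (ctr (b.coord r) z) := by
  refine tens_ind (p := fun z => z = ∑ r, ext (b r) (ctr (b.coord r) z)) ?_ ?_ ?_ z
  · simp only [map_zero, ext_zero, sum_const_zero]
  · intro a c ha hc
    simp only [map_add, ext_add, sum_add_distrib]
    rw [← ha, ← hc]
  · intro x y
    simp only [ctr_ext, ext_smul, ← smul_ext, ← sum_ext]
    congr 1
    exact (b.sum_repr x).symm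

end tensor

variable [CharZero K]

/-- the data of a variety of Fermat type -/
structure FData (D : WeightData K Γ) (N s : ℕ) (c : Γ →* (ZMod N)ˣ) (X : Coh K Γ) where
  n : ℕ
  V : Fin n → Submodule K X.rep.V
  d : Fin n → ℕ
  a : Fin n → Multiset (ZMod N)
  π : Γ → Equiv.Perm (Fin n)
  internal : DirectSum.IsInternal V
  degree : ∀ i, V i ≤ X.gr (d i)
  card : ∀ i, (a i).card ≤ s
  wt : ∀ i, ∀ x ∈ V i,
    (2 * N : K) • D.Θ X.rep x = ((N * d i + ((a i).map saw).sum : ℤ) : K) • x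
  d_π : ∀ g i, d (π g i) = d i
  a_π : ∀ g i, a (π g i) = (a i).map (fun x => (c g : ZMod N) * x)
  act_π : ∀ g i, ∀ x ∈ V (π g i), X.rep.ap g x ∈ V i
  alg : ∀ i, (a i).map (fun x => -x) = a i → ∀ x ∈ V i,
    x ∈ Submodule.span K {x | ∃ c : ℕ, x ∈ X.cl c}
  prime : N.Prime
  coh : IsCoh D.χ X

namespace FData

variable {D : WeightData K Γ} {N s : ℕ} {c : Γ →* (ZMod N)ˣ} {X : Coh K Γ}

/-- the eigenvalue of the weight operator -/
def lam (C : FData D N s c X) (i : Fin C.n) : K :=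
  ((N * C.d i + ((C.a i).map saw).sum : ℤ) : K) / (2 * N)

theorem two_N_ne (C : FData D N s c X) : (2 * N : K) ≠ 0 := by
  have : (N : K) ≠ 0 := by exact_mod_cast C.prime.ne_zero
  exact mul_ne_zero two_ne_zero this

theorem weight_V (C : FData D N s c X) {i : Fin C.n} {x : X.rep.V} (hx : x ∈ C.V i) :
    D.Θ X.rep x = C.lam i • x := by
  have h1 := C.wt i x hx
  have h2 := congrArg (fun y => (2 * N : K)⁻¹ • y) h1
  simp only [smul_smul] at h2
  rw [inv_mul_cancel₀ C.two_N_ne, one_smul] at h2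
  rw [h2, lam, div_eq_inv_mul]

/-- the projectors -/
noncomputable def pr (C : FData D N s c X) (i : Fin C.n) : Module.End K X.rep.V :=
  (C.V i).subtype ∘ₗ (DirectSum.component K (Fin C.n) (fun i => C.V i) i) ∘ₗ
    (LinearEquiv.ofBijective (DirectSum.coeLinearMap C.V) C.internal).symm.toLinearMap

theorem pr_mem (C : FData D N s c X) (i : Fin C.n) (x : X.rep.V) : C.pr i x ∈ C.V i :=
  Submodule.coe_mem _

theorem pr_of_mem (C : FData D N s c X) {i j : Fin C.n} {x : X.rep.V} (hx : x ∈ C.V j) :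
    C.pr i x = if i = j then x else 0 := by
  have h1 : (LinearEquiv.ofBijective (DirectSum.coeLinearMap C.V) C.internal).symm x =
      DirectSum.lof K (Fin C.n) (fun i => C.V i) j ⟨x, hx⟩ := by
    rw [LinearEquiv.symm_apply_eq]
    exact (DirectSum.coeLinearMap_lof C.V j ⟨x, hx⟩).symm
  change ((DirectSum.component K (Fin C.n) (fun i => C.V i) i)
    ((LinearEquiv.ofBijective (DirectSum.coeLinearMap C.V) C.internal).symm x) : X.rep.V) = _
  rw [h1]
  split_ifs with h
  · subst h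
    rw [DirectSum.component.lof_self]
  · rw [DirectSum.component.of, dif_neg (Ne.symm h)]
    rfl

theorem sum_pr (C : FData D N s c X) (x : X.rep.V) : ∑ i, C.pr i x = x := by
  have h1 : x ∈ ⨆ i, C.V i := C.internal.submodule_iSup_eq_top ▸ Submodule.mem_top
  induction h1 using Submodule.iSup_induction' with
  | mem i x hx =>
    rw [sum_congr rfl fun j _ => C.pr_of_mem (i := j) hx, sum_ite_eq' univ i, if_pos (mem_univ _)]
  | zero => simp
  | add x y _ _ hx hy =>
    rw [← add_right_inj (0 : X.rep.V), zero_add, zero_add]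
    conv_rhs => rw [← hx, ← hy]
    rw [← sum_add_distrib]
    exact sum_congr rfl fun i _ => map_add _ _ _

/-- functionals supported at the index `i` -/
def IsFn (C : FData D N s c X) (i : Fin C.n) (f : X.rep.V →ₗ[K] K) : Prop :=
  ∀ j, j ≠ i → ∀ x ∈ C.V j, f x = 0

theorem isFn_pr (C : FData D N s c X) (i : Fin C.n) (F : X.rep.V →ₗ[K] K) :
    C.IsFn i (F ∘ₗ C.pr i) := by
  intro j hj x hx
  rw [LinearMap.comp_apply, C.pr_of_mem hx, if_neg (Ne.symm hj), map_zero]

theorem isFn_act (C : FData D N s c X) {i : Fin C.n} {f : X.rep.V →ₗ[K] K} (hf : C.IsFn i f)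
    (g : Γ) : C.IsFn (C.π g i) (f ∘ₗ X.rep.act g) := by
  intro j hj x hx
  have h1 : X.rep.ap g x ∈ C.V ((C.π g).symm j) := by
    apply C.act_π g
    rw [Equiv.apply_symm_apply]
    exact hx
  refine hf _ (fun h => hj ?_) _ h1
  rw [← h, Equiv.apply_symm_apply]

theorem fn_weight (C : FData D N s c X) {i : Fin C.n} {f : X.rep.V →ₗ[K] K} (hf : C.IsFn i f)
    (x : X.rep.V) : f (D.Θ X.rep x) = C.lam i * f x := by
  rw [← C.sum_pr x, map_sum, map_sum, map_sum, mul_sum]
  refine sum_congr rfl fun j _ => ?_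
  rw [C.weight_V (C.pr_mem j x), map_smul, smul_eq_mul]
  by_cases h : j = i
  · rw [h]
  · rw [hf j h _ (C.pr_mem j x), mul_zero, mul_zero]

theorem ctr_fn_sum (C : FData D N s c X) {M : Rp K Γ} (F : X.rep.V →ₗ[K] K)
    (y : (tens X.rep M).V) : ctr F y = ∑ j, ctr (F ∘ₗ C.pr j) y := by
  have h1 : F = ∑ j, F ∘ₗ C.pr j := by
    apply LinearMap.ext
    intro x
    rw [LinearMap.sum_apply]
    conv_lhs => rw [← C.sum_pr x, map_sum]
    rfl
  conv_lhs => rw [h1]
  exact ctr_sum univ (fun j => F ∘ₗ C.pr j) y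

theorem eq_zero_of_ctr (C : FData D N s c X) {M : Rp K Γ} {y : (tens X.rep M).V}
    (h : ∀ i f, C.IsFn i f → ctr f y = 0) : y = 0 := by
  rw [expand (Module.finBasis K X.rep.V) y]
  refine sum_eq_zero fun r _ => ?_
  rw [C.ctr_fn_sum, sum_eq_zero fun j _ => h j _ (C.isFn_pr j _), ext_zero]

/-- the character is symmetric -/
def Symm (C : FData D N s c X) (i : Fin C.n) : Prop := (C.a i).map (fun x => -x) = C.a i

/-- the indices, with an additional one -/
abbrev Ix (C : FData D N s c X) : Type := Option (Fin C.n)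

/-- the eigenvalue -/
def lamO (C : FData D N s c X) (o : C.Ix) : K := o.elim 0 C.lam

/-- the permutation -/
def πO (C : FData D N s c X) (g : Γ) (o : C.Ix) : C.Ix := o.map (C.π g)

/-- the index has a character which is not symmetric -/
def NS (C : FData D N s c X) (o : C.Ix) : Prop := ∃ j, o = some j ∧ ¬C.Symm j

/-- functionals supported at the index -/
def IsFnO (C : FData D N s c X) (o : C.Ix) (f : X.rep.V →ₗ[K] K) : Prop :=
  ∃ j, o = some j ∧ C.IsFn j f

theorem isFnO_act (C : FData D N s c X) {o : C.Ix} {f : X.rep.V →ₗ[K] K}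
    (hf : C.IsFnO o f) (g : Γ) : C.IsFnO (C.πO g o) (f ∘ₗ X.rep.act g) := by
  obtain ⟨j, rfl, hf⟩ := hf
  exact ⟨C.π g j, rfl, C.isFn_act hf g⟩

theorem fnO_weight (C : FData D N s c X) {o : C.Ix} {f : X.rep.V →ₗ[K] K}
    (hf : C.IsFnO o f) (x : X.rep.V) : f (D.Θ X.rep x) = C.lamO o * f x := by
  obtain ⟨j, rfl, hf⟩ := hf
  exact C.fn_weight hf x

/-- the weight of a conjugate index -/
theorem lam_π (C : FData D N s c X) (g : Γ) (j : Fin C.n) : C.lam (C.π g j) =
    ((N * C.d j + sawSum (C.a j) (c g : ZMod N) : ℤ) : K) / (2 * N) := by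
  rw [FData.lam, C.d_π, C.a_π, Multiset.map_map]
  rfl

end FData

variable {D : WeightData K Γ} {ι : Type} {N s : ι → ℕ} {X : ι → Coh K Γ} {Z : Coh K Γ}
  {c : ∀ i, Γ →* (ZMod (N i))ˣ}

/-- the functionals on a product with values in the cohomology of `Z` -/
structure Funs (C : ∀ i, FData D (N i) (s i) (c i) (X i)) (Z : Coh K Γ) (S : Finset ι)
    (M : Rp K Γ) where
  Φ : (∀ i, (C i).Ix) → Set (M.V →ₗ[K] Z.rep.V)
  ext : ∀ τ τ', (∀ i ∈ S, τ i = τ' i) → Φ τ = Φ τ'
  act : ∀ τ, ∀ φ ∈ Φ τ, ∀ g, Z.rep.act g⁻¹ ∘ₗ φ ∘ₗ M.act g ∈ Φ fun i => (C i).πO g (τ i)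
  wt : ∀ τ, ∀ φ ∈ Φ τ, ∀ y,
    D.Θ Z.rep (φ y) = φ (D.Θ M y) - (∑ i ∈ S, (C i).lamO (τ i)) • φ y
  sep : ∀ y, (∀ τ, ∀ φ ∈ Φ τ, φ y = 0) → y = 0

/-- the basis -/
def Funs.base (C : ∀ i, FData D (N i) (s i) (c i) (X i)) (Z : Coh K Γ) : Funs C Z ∅ Z.rep where
  Φ _ := {LinearMap.id}
  ext _ _ _ := rfl
  act := by
    rintro τ φ rfl g
    rw [Set.mem_singleton_iff]
    apply LinearMap.ext
    intro x
    exact inv_ap Z.rep g x
  wt := by
    rintro τ φ rfl y
    simp
  sep := fun y h => h (fun _ => none) LinearMap.id rfl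

/-- one step -/
noncomputable def Funs.step (C : ∀ i, FData D (N i) (s i) (c i) (X i)) [DecidableEq ι]
    {S : Finset ι} {M : Rp K Γ} (Q : Funs C Z S M) {i : ι} (hi : i ∉ S) :
    Funs C Z (insert i S) (tens (X i).rep M) where
  Φ τ := {ψ | ∃ f, (C i).IsFnO (τ i) f ∧ ∃ φ ∈ Q.Φ τ, ψ = φ ∘ₗ ctr f}
  ext := by
    intro τ τ' h
    have h3 : Q.Φ τ = Q.Φ τ' := Q.ext τ τ' fun a ha => h a (mem_insert_of_mem ha)
    rw [h3, h i (mem_insert_self i S)]
  act := by
    rintro τ ψ ⟨f, hf, φ, hφ, rfl⟩ g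
    refine ⟨f ∘ₗ (X i).rep.act g, (C i).isFnO_act hf g, _, Q.act τ φ hφ g, ?_⟩
    apply LinearMap.ext
    intro y
    exact congrArg (fun y => Z.rep.act g⁻¹ (φ y)) (ctr_ap f g y)
  wt := by
    rintro τ ψ ⟨f, hf, φ, hφ, rfl⟩ y
    change D.Θ Z.rep (φ (ctr f y)) = φ (ctr f (D.Θ (tens (X i).rep M) y)) - _ • φ (ctr f y)
    rw [Q.wt τ φ hφ, ctr_theta D ((C i).fnO_weight hf), sum_insert hi, map_sub, map_smul,
      add_smul]
    abel
  sep := by
    intro y h
    apply (C i).eq_zero_of_ctr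
    intro j f hf
    apply Q.sep
    intro τ φ hφ
    have h3 : Q.Φ τ = Q.Φ (Function.update τ i (some j)) := Q.ext _ _ fun a ha => by
      rw [Function.update_of_ne (fun h4 : a = i => hi (h4 ▸ ha))]
    refine h (Function.update τ i (some j)) (φ ∘ₗ ctr f) ⟨f, ?_, φ, h3 ▸ hφ, rfl⟩
    rw [Function.update_self]
    exact ⟨j, rfl, hf⟩

/-- products have functionals -/
theorem exists_funs [DecidableEq ι] (C : ∀ i, FData D (N i) (s i) (c i) (X i)) (L : List ι)
    (hL : L.Nodup) : Nonempty (Funs C Z L.toFinset (space X Z L)) := by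
  induction L with
  | nil => exact ⟨Funs.base C Z⟩
  | cons i L ih =>
    obtain ⟨h1, h2⟩ := List.nodup_cons.1 hL
    obtain ⟨Q⟩ := ih h2
    have h3 : i ∉ L.toFinset := fun h => h1 (List.mem_toFinset.1 h)
    rw [List.toFinset_cons]
    exact ⟨Funs.step C Q h3⟩

end Pool.Agent.U231.LT
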