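import Pool.Agent.U231.LT.Fun
import Pool.Agent.U231.LP.Ari

/-!
# Galois representations of varieties of Fermat type: there are no components for characters which are
not symmetric
-/

set_option autoImplicit false
set_option linter.unusedSectionVars false

open TensorProduct Finset

namespace Pool.Agent.U231.LT

open Pool.Agent.Y95.ZT.S Pool.Agent.U231.LP Pool.Agent.U231.FT Pool.Agent.U231.HF

variable {K : Type} [Field K] {Γ : Type} [Group Γ] [CharZero K]

/-- the powers of the character -/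
abbrev chiPow (D : WeightData K Γ) (r : ℤ) : Rp K Γ := chi (D.χ ^ r)

/-- the weight of the power `χ ^ r` -/
def th (D : WeightData K Γ) (r : ℤ) : K := D.Θ (chiPow D r) (1 : K)

theorem th_add (D : WeightData K Γ) (i j : ℤ) : th D (i + j) = th D i + th D j := by
  have h1 : (LinearMap.mul K K) (th D i) (1 : K) + (LinearMap.mul K K) (1 : K) (th D j) =
      D.Θ (chiPow D (i + j)) ((LinearMap.mul K K) (1 : K) (1 : K)) :=
    bil_comm D (M₁ := chiPow D i) (M₂ := chiPow D j) (M' := chiPow D (i + j))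
      (LinearMap.mul K K) (fun (g : Γ) (x y : K) => by
        change (((D.χ g ^ i : Kˣ) : K) * x) * (((D.χ g ^ j : Kˣ) : K) * y) =
          ((D.χ g ^ (i + j) : Kˣ) : K) * (x * y)
        rw [zpow_add, Units.val_mul]
        ring) (1 : K) (1 : K)
  have e : (LinearMap.mul K K) (1 : K) (1 : K) = (1 : K) := mul_one _
  have e1 : (LinearMap.mul K K) (th D i) (1 : K) = th D i := mul_one _
  have e2 : (LinearMap.mul K K) (1 : K) (th D j) = th D j := one_mul _
  rw [e1, e2] at h1
  refine Eq.trans ?_ h1.symm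
  exact congrArg (fun x : K => D.Θ (chiPow D (i + j)) x) e.symm

/-- the weights of the powers of the character -/
theorem th_eq (D : WeightData K Γ) (h : IsNormalized D) (r : ℤ) : th D r = r := by
  have h0 : th D 0 = 0 := by
    have h1 := th_add D 0 0
    rw [add_zero] at h1
    exact add_eq_left.1 h1.symm
  have h1 : th D 1 = 1 := by
    have key : ∀ χ' : Γ →* Kˣ, χ' = D.χ → D.Θ (chi χ') (1 : K) = (1 : K) := by
      rintro _ rfl
      exact h
    exact key (D.χ ^ (1 : ℤ)) (MonoidHom.ext fun g => zpow_one (D.χ g))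
  have h2 : ∀ j : ℕ, th D j = j := by
    intro j
    induction j with
    | zero => rw [Nat.cast_zero, Nat.cast_zero, h0]
    | succ j ih => rw [Nat.cast_succ, th_add, ih, h1, Nat.cast_succ]
  obtain ⟨j, rfl | rfl⟩ := Int.eq_nat_or_neg r
  · rw [h2, Int.cast_natCast]
  · have h3 := th_add D j (-j)
    rw [add_neg_cancel, h0, h2] at h3
    rw [Int.cast_neg, Int.cast_natCast]
    exact (neg_eq_of_add_eq_zero_right h3.symm).symm

/-- the weight operator on fixed elements -/
theorem theta_fixed (D : WeightData K Γ) (hD : IsNormalized D) {M : Rp K Γ} {r : ℤ} {x : M.V}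
    (hx : IsFixed D.χ M r x) : D.Θ M x = (r : K) • x := by
  obtain ⟨Δ, hΔ, hx⟩ := hx
  let f : (chiPow D r).V →ₗ[K] M.V := LinearMap.toSpanSingleton K M.V x
  have h1 := pot_comm D (M := chiPow D r) (M' := M) f hΔ (fun g hg (y : K) => by
    change (((D.χ g ^ r : Kˣ) : K) • y) • x = M.ap g (y • x)
    rw [ap_smul, hx g hg, smul_smul, smul_eq_mul, mul_comm]) (1 : K)
  change th D r • x = D.Θ M ((1 : K) • x) at h1
  rw [one_smul, th_eq D hD] at h1
  exact h1.symm

/-- conjugates of fixed elements -/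
theorem fixed_ap {D : WeightData K Γ} {M : Rp K Γ} {r : ℤ} {x : M.V} (hx : IsFixed D.χ M r x)
    (g : Γ) : IsFixed D.χ M r (M.ap g x) := by
  obtain ⟨Δ, hΔ, hx⟩ := hx
  refine ⟨Δ.comap (MulAut.conj g⁻¹).toMonoidHom, ?_, fun h hh => ?_⟩
  · exact ⟨by
      rw [Subgroup.index_comap_of_surjective _ (MulAut.conj g⁻¹).surjective]
      exact hΔ.index_ne_zero⟩
  · have h1 : g⁻¹ * h * g ∈ Δ := by
      have h2 := Subgroup.mem_comap.1 hh
      simpa using h2
    have h2 := hx _ h1
    have h3 : M.ap h (M.ap g x) = M.ap g (M.ap (g⁻¹ * h * g) x) := by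
      rw [← ap_mul, ← ap_mul]
      congr 1
      group
    rw [h3, h2, ap_smul]
    congr 3
    rw [map_mul, map_mul, map_inv, mul_comm, ← mul_assoc, mul_inv_cancel, one_mul]

/-- the conjugate of the weight operator -/
def cW (D : WeightData K Γ) (M : Rp K Γ) (t : Γ) : Module.End K M.V :=
  M.act t ∘ₗ D.Θ M ∘ₗ M.act t⁻¹

theorem cW_apply (D : WeightData K Γ) (M : Rp K Γ) (t : Γ) (x : M.V) :
    cW D M t x = M.ap t (D.Θ M (M.ap t⁻¹ x)) := rfl

variable {D : WeightData K Γ} {ι : Type} {N s : ι → ℕ} {X : ι → Coh K Γ} {Z : Coh K Γ}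
  {c : ∀ i, Γ →* (ZMod (N i))ˣ}

theorem cW_eigen {C : ∀ i, FData D (N i) (s i) (c i) (X i)} {T : Finset ι} {M : Rp K Γ}
    (Q : Funs C Z T M) (hD : IsNormalized D) {r : ℤ} {y : M.V} (hy : IsFixed D.χ M r y)
    {τ : ∀ i, (C i).Ix} {φ : M.V →ₗ[K] Z.rep.V} (hφ : φ ∈ Q.Φ τ) (g t : Γ) :
    cW D Z.rep t (Z.rep.ap g⁻¹ (φ y)) =
      ((r : K) - ∑ i ∈ T, (C i).lamO ((C i).πO (g * t) (τ i))) • Z.rep.ap g⁻¹ (φ y) := by
  have e1 : Z.rep.ap t⁻¹ (Z.rep.ap g⁻¹ (φ y)) = Z.rep.ap (g * t)⁻¹ (φ y) := by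
    rw [mul_inv_rev, ap_mul]
  have e2 : Z.rep.ap (g * t)⁻¹ (φ y) = (Z.rep.act (g * t)⁻¹ ∘ₗ φ ∘ₗ M.act (g * t))
      (M.ap (g * t)⁻¹ y) := by
    change _ = Z.rep.ap (g * t)⁻¹ (φ (M.ap (g * t) (M.ap (g * t)⁻¹ y)))
    rw [ap_inv]
  have e5 := Q.wt _ _ (Q.act τ φ hφ (g * t)) (M.ap (g * t)⁻¹ y)
  rw [cW_apply, e1, e2, e5, theta_fixed D hD (fixed_ap hy _), map_smul, ← sub_smul, ← e2,
    ap_smul, ← ap_mul]
  congr 3
  group

/-- the components are pure -/
theorem isPure_of {C : ∀ i, FData D (N i) (s i) (c i) (X i)} {T : Finset ι} {M : Rp K Γ}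
    (Q : Funs C Z T M) (hD : IsNormalized D) {r : ℤ} {y : M.V} (hy : IsFixed D.χ M r y)
    {τ : ∀ i, (C i).Ix} {φ : M.V →ₗ[K] Z.rep.V} (hφ : φ ∈ Q.Φ τ) : IsPure D Z.rep (φ y) := by
  intro g
  have h1 := cW_eigen Q hD hy hφ 1 g⁻¹
  have h2 := congrArg (Z.rep.ap g) h1
  rw [inv_one, ap_one, ap_smul, cW_apply, ap_inv, inv_inv] at h2
  exact ⟨_, h2⟩

/-- every pure class is nonzero in a small piece -/
def SmallPieces (D : WeightData K Γ) (B : ℕ) (M : Rp K Γ) : Prop :=
  ∀ x : M.V, x ≠ 0 → IsPure D M x → ∃ E : Module.End K M.V,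
    (∀ g x, E (M.ap g x) = M.ap g (E x)) ∧ (∀ x, E (D.Θ M x) = D.Θ M (E x)) ∧
      Module.finrank K (LinearMap.range E) ≤ B ∧ E x ≠ 0

/-- small pieces -/
theorem smallPieces {B : ℕ} {M : Rp K Γ} (h : HasPieces D B M) : SmallPieces D B M := by
  classical
  obtain ⟨m, U, hU1, hU2, hU3⟩ := h
  have hU : DirectSum.IsInternal U :=
    (DirectSum.isInternal_submodule_iff_iSupIndep_and_iSup_eq_top U).2
      ⟨hU1, eq_top_iff.2 fun x _ => hU2 x⟩
  obtain ⟨p, hpo, hps⟩ := exists_projectors' hU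
  have hpm : ∀ i y, p i y ∈ U i := by
    intro i y
    have h1 : y ∈ ⨆ i, U i := hU.submodule_iSup_eq_top ▸ Submodule.mem_top
    induction h1 using Submodule.iSup_induction' with
    | mem j y hy =>
      rw [hpo i j y hy]
      split_ifs with h
      · exact h ▸ hy
      · exact Submodule.zero_mem _
    | zero => rw [map_zero]; exact Submodule.zero_mem _
    | add y z _ _ hy hz => rw [map_add]; exact Submodule.add_mem _ hy hz
  intro x hx hp
  have hpg : ∀ i g y, p i (M.ap g y) = M.ap g (p i y) := by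
    intro i g y
    have h4 : M.ap g y = ∑ j, M.ap g (p j y) := by
      rw [← ap_sum, hps]
    have h5 : ∑ j, p i (M.ap g (p j y)) = ∑ j, if i = j then M.ap g (p j y) else 0 :=
      sum_congr rfl fun j _ => hpo i j _ ((hU3 j).1 g _ (hpm j y))
    rw [h4, map_sum, h5, sum_ite_eq univ i, if_pos (mem_univ _)]
  have hpw : ∀ i y, p i (D.Θ M y) = D.Θ M (p i y) := by
    intro i y
    exact pot_comm D (M := M) (M' := M) (p i) (Δ := ⊤) inferInstance
      (fun g _ x => hpg i g x) y
  have hpp : ∀ i, IsPure D M (p i x) := by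
    intro i g
    obtain ⟨c, hc⟩ := hp g
    refine ⟨c, ?_⟩
    rw [← hpg, ← hpw, hc, map_smul]
  obtain ⟨i, hi1, hi2⟩ : ∃ i, Module.finrank K (U i) ≤ B ∧ p i x ≠ 0 := by
    by_contra hcon
    push Not at hcon
    apply hx
    rw [← hps x]
    refine sum_eq_zero fun i _ => ?_
    rcases (hU3 i).2 with h2 | h2
    · exact hcon i h2
    · exact h2 _ (hpm i x) (hpp i)
  refine ⟨p i, hpg i, hpw i, ?_, hi2⟩
  have h1 : LinearMap.range (p i) ≤ U i := by
    rintro _ ⟨y, rfl⟩
    exact hpm i y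
  exact (Submodule.finrank_mono h1).trans hi1

/-- **Fixed elements have no components for characters which are not symmetric.** -/
theorem vanish (C : ∀ i, FData D (N i) (s i) (c i) (X i)) {T : Finset ι} {M : Rp K Γ}
    (Q : Funs C Z T M) (hD : IsNormalized D) {B : ℕ}
    (hZ : SmallPieces D B Z.rep) (hN : ∀ i, IsLarge (N i) (s i) B)
    (hc : ∀ (S : Finset ι) (t : ∀ i, (ZMod (N i))ˣ), ∃ g, ∀ i ∈ S, c i g = t i)
    {r : ℤ} {y : M.V} (hy : IsFixed D.χ M r y) {τ : ∀ i, (C i).Ix}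
    (hτ : ∃ i ∈ T, (C i).NS (τ i)) {φ : M.V →ₗ[K] Z.rep.V} (hφ : φ ∈ Q.Φ τ) : φ y = 0 := by
  classical
  obtain ⟨i₀, hi₀, j, hj, hns⟩ := hτ
  by_contra hne
  have hp : Fact (N i₀).Prime := ⟨(C i₀).prime⟩
  obtain ⟨E, hE1, hE2, hE3, hE4⟩ := hZ _ hne (isPure_of Q hD hy hφ)
  -- the stabilizer
  let G := (ZMod (N i₀))ˣ
  let H : Subgroup G :=
    { carrier := {h | ∀ t : G, sawSum ((C i₀).a j) ((t : ZMod (N i₀)) * (h : G)) =
        sawSum ((C i₀).a j) t}
      mul_mem' := by
        intro h h' h1 h2 t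
        rw [Units.val_mul, mul_comm (h : ZMod (N i₀)), ← mul_assoc, ← Units.val_mul t h', h1,
          Units.val_mul, h2]
      one_mem' := by
        intro t
        rw [Units.val_one, mul_one]
      inv_mem' := by
        intro h h1 t
        have h2 := h1 (t * h⁻¹)
        rw [← Units.val_mul, inv_mul_cancel_right, Units.val_mul] at h2
        exact h2.symm }
  apply hns
  refine symm_of_index' ((C i₀).card j) H (fun h hh t => hh t) ?_ (hN i₀)
  -- the group elements
  choose g hg using fun q : G => hc T fun i => if h : i = i₀ then h ▸ q else 1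
  have hg0 : ∀ q, c i₀ (g q) = q := fun q => by rw [hg q i₀ hi₀, dif_pos rfl]
  have hg1 : ∀ q, ∀ i ∈ T, i ≠ i₀ → c i (g q) = 1 := fun q i hi h => by
    rw [hg q i hi, dif_neg h]
  -- the eigenvalues
  let α : G → G → K := fun q v =>
    (r : K) - (∑ i ∈ T.erase i₀, (C i).lamO ((C i).πO 1 (τ i)) +
      ((N i₀ * (C i₀).d j + sawSum ((C i₀).a j) ((q * v : G) : ZMod (N i₀)) : ℤ) : K) /
        (2 * N i₀))
  have hlam : ∀ (i : ι) (o : (C i).Ix) (h h' : Γ), c i h = c i h' →
      (C i).lamO ((C i).πO h o) = (C i).lamO ((C i).πO h' o) := by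
    intro i o h h' he
    cases o with
    | none => rfl
    | some l =>
      change (C i).lam ((C i).π h l) = (C i).lam ((C i).π h' l)
      rw [FData.lam_π, FData.lam_π, he]
  have hα0 : ∀ q v, cW D Z.rep (g v) (Z.rep.ap (g q)⁻¹ (φ y)) =
      α q v • Z.rep.ap (g q)⁻¹ (φ y) := by
    intro q v
    rw [cW_eigen Q hD hy hφ]
    congr 1
    simp only [α]
    rw [← Finset.sum_erase_add T _ hi₀, hj]
    congr 2
    · refine sum_congr rfl fun i hi => hlam i _ _ _ ?_
      rw [map_mul, hg1 q i (mem_of_mem_erase hi) (ne_of_mem_erase hi),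
        hg1 v i (mem_of_mem_erase hi) (ne_of_mem_erase hi), one_mul, map_one]
    · change (C i₀).lam ((C i₀).π (g q * g v) j) = _
      rw [FData.lam_π, map_mul, hg0, hg0]
  have hα : ∀ q v, cW D Z.rep (g v) (E (Z.rep.ap (g q)⁻¹ (φ y))) =
      α q v • E (Z.rep.ap (g q)⁻¹ (φ y)) := by
    intro q v
    rw [← map_smul, ← hα0, cW_apply, cW_apply, ← hE1 (g v)⁻¹, ← hE2, ← hE1 (g v)]
  -- different cosets have different eigenvalues
  have hsep : ∀ q q' : G ⧸ H, q ≠ q' → ∃ v, α q.out v ≠ α q'.out v := by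
    intro q q' hqq
    by_contra hcon
    push Not at hcon
    apply hqq
    rw [← QuotientGroup.out_eq' q, ← QuotientGroup.out_eq' q', QuotientGroup.eq]
    have h1 : ∀ v, sawSum ((C i₀).a j) ((q.out * v : G) : ZMod (N i₀)) =
        sawSum ((C i₀).a j) ((q'.out * v : G) : ZMod (N i₀)) := by
      intro v
      have h2 := hcon v
      simp only [α] at h2
      have h3 := (C i₀).two_N_ne
      have h4 := add_left_cancel (sub_right_inj.1 h2)
      rw [div_left_inj' h3] at h4
      have h5 : ((N i₀ : ℤ) * (C i₀).d j + sawSum ((C i₀).a j) ((q.out * v : G) : ZMod (N i₀))) =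
          (N i₀ * (C i₀).d j + sawSum ((C i₀).a j) ((q'.out * v : G) : ZMod (N i₀))) := by
        exact_mod_cast h4
      exact add_left_cancel h5
    intro t
    have h2 := h1 ((q.out : G)⁻¹ * t)
    rw [mul_inv_cancel_left] at h2
    rw [h2, ← Units.val_mul]
    congr 2
    rw [mul_comm t, mul_comm (q.out⁻¹ : G), mul_assoc]
  choose v hv using hsep
  let u : G ⧸ H → Z.rep.V := fun q => E (Z.rep.ap (g q.out)⁻¹ (φ y))
  have hu : ∀ q, u q ≠ 0 := by
    intro q h5
    apply hE4
    have h6 := congrArg (Z.rep.ap (g q.out)) h5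
    rw [ap_zero] at h6
    change Z.rep.ap (g q.out) (E (Z.rep.ap (g q.out)⁻¹ (φ y))) = 0 at h6
    rwa [← hE1, ap_inv] at h6
  let P : G ⧸ H → G ⧸ H → Module.End K Z.rep.V := fun q q' =>
    if h : q ≠ q' then (α q.out (v q q' h) - α q'.out (v q q' h))⁻¹ •
      (cW D Z.rep (g (v q q' h)) - α q'.out (v q q' h) • LinearMap.id) else 0
  have hli : LinearIndependent K u := by
    refine indep_of_pairs (fun q => K ∙ u q) u (fun q => Submodule.mem_span_singleton_self _) hu
      P ?_ ?_ ?_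
    · intro q q' h x hx
      obtain ⟨r, rfl⟩ := Submodule.mem_span_singleton.1 hx
      simp only [P, dif_pos h]
      rw [LinearMap.smul_apply, LinearMap.sub_apply, map_smul, hα, LinearMap.smul_apply,
        LinearMap.id_apply, smul_comm r, ← sub_smul, smul_smul,
        inv_mul_cancel₀ (sub_ne_zero.2 (hv q q' h)), one_smul]
    · intro q q' h x hx
      obtain ⟨r, rfl⟩ := Submodule.mem_span_singleton.1 hx
      simp only [P, dif_pos h]
      rw [LinearMap.smul_apply, LinearMap.sub_apply, map_smul, hα, LinearMap.smul_apply,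
        LinearMap.id_apply, smul_comm r, sub_self, smul_zero]
    · intro q q' m h x hx
      obtain ⟨r, rfl⟩ := Submodule.mem_span_singleton.1 hx
      simp only [P, dif_pos h]
      rw [LinearMap.smul_apply, LinearMap.sub_apply, map_smul, hα, LinearMap.smul_apply,
        LinearMap.id_apply]
      exact Submodule.smul_mem _ _ (Submodule.sub_mem _
        (Submodule.smul_mem _ _ (Submodule.smul_mem _ _ (Submodule.mem_span_singleton_self _)))
        (Submodule.smul_mem _ _ (Submodule.smul_mem _ _ (Submodule.mem_span_singleton_self _))))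
  have h2 : LinearIndependent K fun q => (⟨u q, ⟨_, rfl⟩⟩ : LinearMap.range E) := by
    apply LinearIndependent.of_comp (LinearMap.range E).subtype
    exact hli
  have : Fintype (G ⧸ H) := Fintype.ofFinite _
  have h3 := h2.fintype_card_le_finrank
  rw [Subgroup.index, Nat.card_eq_fintype_card]
  exact h3.trans hE3

end Pool.Agent.U231.LT
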